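import Pool.Agent.Helper42.MA.PAR
import Pool.Agent.Helper67.MA.SEQ

/-!
# Block NN: nice names of families of reals
-/

set_option linter.unusedSectionVars false
set_option linter.unusedVariables false

open Cardinal

namespace Pool.Agent.Helper60.MA

/-- block NN: nice names of families of reals -/
theorem Sys.nice_names {Z : Type} (hZ : #Z ≤ Cardinal.aleph 1) (S : Sys Om La)
    (A : Z → ℕ → Bool → Cd Om → Prop) (hA : ∀ z k i p, A z k i p → S.Cond p)
    (hd : ∀ z k p, S.Cond p → ∃ i q, S.Cond q ∧ S.Le q p ∧ A z k i q)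
    (hc : ∀ z k i i' p p' r, A z k i p → A z k i' p' → S.Cond r → S.Le r p → S.Le r p' → i = i') :
    ∃ (e : Om) (ν : Z → Om), (∀ z, S.Nme e (ν z)) ∧
      ∀ z k n, A z k (S.dec (ν z) k n).2 (S.dec (ν z) k n).1 := by
  have h1 : ∀ z, ∃ ν, S.IsName S.Cond ν ∧ ∀ k n, A z k (S.dec ν k n).2 (S.dec ν k n).1 := by
    intro z
    refine Sys.exists_name (S := S) (C := S.Cond) (fun _ h => h)
      (fun p q r _ _ h h' h'' => ⟨r, h, h', h''⟩) Sys.cond_zero (fun k t i => A z k i t)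
      (fun k t i h => hA z k i t h) ?_ ?_
    · intro k p hp
      obtain ⟨i, q, hq, hqp, hqA⟩ := hd z k p hp
      exact ⟨q, i, q, hqA, hq, hqp, Sys.Le.refl q⟩
    · intro k t t' i i' r ht ht' hr h h'
      exact hc z k i i' t t' r ht ht' hr h h'
  choose ν hν hνA using h1
  -- a bound of all supports
  have h2 : ∀ p : Cd Om, ∃ a : Om, ∀ d, p d ≠ 0 → d ≤ a := by
    intro p
    obtain ⟨a, ha⟩ := p.support.finite_toSet.bddAbove
    exact ⟨a, fun d hd => ha (Finset.mem_coe.2 (Finsupp.mem_support_iff.2 hd))⟩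
  choose b hb using h2
  have h3 : #(Z × (ℕ × ℕ)) ≤ Cardinal.aleph 1 := by
    rw [mk_prod, lift_id, lift_id]
    have h4 : #(ℕ × ℕ) ≤ Cardinal.aleph 1 :=
      (mk_le_aleph0 (α := ℕ × ℕ)).trans (aleph0_le_aleph 1)
    exact (mul_le_mul' hZ h4).trans (mul_eq_self (aleph0_le_aleph 1)).le
  obtain ⟨e, he⟩ := bddOm h3 (fun t => b (S.dec (ν t.1) t.2.1 t.2.2).1)
  have h5 : ∀ z k n, S.CondB e (S.dec (ν z) k n).1 := by
    intro z k n
    refine Sys.CondB_iff'.2 ⟨(hν z).mem k n, fun d hd => ?_⟩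
    exact (hb _ d hd).trans_lt (he (z, (k, n)))
  refine ⟨e, ν, fun z => ⟨h5 z, ?_, ?_⟩, hνA⟩
  · intro k p hp
    obtain ⟨n, r, hr, hrp, hrn⟩ := (hν z).pre k p hp.cond
    refine ⟨n, Sys.cut e r, hr.cut e, ?_, ?_⟩
    · have h6 := Sys.cut_le_cut (hrp.leB e)
      rwa [Sys.cut_eq_self (fun d hd => hp.zero_of_le hd)] at h6
    · have h6 := Sys.cut_le_cut (hrn.leB e)
      rwa [Sys.cut_eq_self (fun d hd => (h5 z k n).zero_of_le hd)] at h6
  · intro k m n r hr hm hn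
    exact (hν z).coh k m n r hr.cond hm hn

end Pool.Agent.Helper60.MA
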