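import Pool.Agent.Helper60.MA.GDefs

/-!
# Block OM: the countable chain condition preserves `ω₁`
-/

set_option linter.unusedSectionVars false
set_option linter.unusedVariables false

namespace Pool.Agent.Helper60.MA

open Pool.Agent.Helper96.Fc Cardinal Ordinal
open Pool.Agent.Helper89.FV (nat om Tab)

namespace OM

variable {P : Type} [PartialOrder P] [OrderTop P]

section

variable {X : Set (Obj P)} {G : Set P}

theorem natX (hc : Clos X) (n : ℕ) : (Sum.inl (ordN P (n : Ordinal.{0})) : Obj P) ∈ X := by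
  induction n with
  | zero =>
    rw [Nat.cast_zero]
    exact hc.zero
  | succ n ih =>
    rw [Nat.cast_add, Nat.cast_one]
    exact hc.succ _ ih

theorem val_nat (h : Basic X G) (hc : Clos X) (n : ℕ) : val X G (ordN P (n : Ordinal.{0})) =
    nat n := by
  unfold Pool.Agent.Helper89.FV.nat
  induction n with
  | zero =>
    rw [Nat.cast_zero, Ordinal.toZFSet_zero]
    exact val_ordN_zero h.filt
  | succ n ih =>
    rw [Nat.cast_add, Nat.cast_one, Ordinal.toZFSet_add_one, ← ih]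
    exact val_ordN_succ h.filt (natX hc n)

theorem val_omega (h : Basic X G) (hc : Clos X) : val X G (ordN P ω) = om := by
  unfold Pool.Agent.Helper89.FV.om
  ext z
  rw [val_ordN_mem h.filt, Ordinal.mem_toZFSet_iff]
  constructor
  · rintro ⟨b, hb, -, rfl⟩
    obtain ⟨n, rfl⟩ := lt_omega0.1 hb
    exact ⟨n, natCast_lt_omega0 n, (val_nat h hc n).symm⟩
  · rintro ⟨b, hb, rfl⟩
    obtain ⟨n, rfl⟩ := lt_omega0.1 hb
    exact ⟨n, natCast_lt_omega0 n, natX hc n, val_nat h hc n⟩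

theorem pair_iff (h : Basic X G) (hc : Clos X) {x y f : Nm P} (hx : (Sum.inl x : Obj P) ∈ X)
    (hy : (Sum.inl y : Obj P) ∈ X) (hf : (Sum.inl f : Obj P) ∈ X) :
    ZFSet.pair (val X G x) (val X G y) ∈ val X G f ↔ ∃ p ∈ G, FMem (pairN x y) f p := by
  rw [← val_pairN h.filt hc hx hy]
  exact h.mem_iff (hc.pair hx hy) hf

end

/-- the ordinal `ω₁` -/
noncomputable def w1 : Ordinal.{0} := (Cardinal.aleph 1).ord

theorem w1_eq : w1 = ω₁ := by
  rw [w1, Cardinal.ord_aleph]

theorem countable_Iio {a : Ordinal.{0}} (ha : a < w1) : Countable a.ToType := by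
  rw [← Cardinal.mk_le_aleph0_iff, Cardinal.mk_toType]
  have h1 : a.card < Cardinal.aleph 1 := Cardinal.lt_ord.1 ha
  rw [← Cardinal.succ_aleph0] at h1
  exact Order.lt_succ_iff.1 h1

/-- an enumeration of the elements of a countable ordinal by natural numbers -/
theorem exists_enum (a : Ordinal.{0}) : ∃ e : a.ToType → ℕ, a < w1 → Function.Injective e := by
  by_cases ha : a < w1
  · have := countable_Iio ha
    obtain ⟨e, he⟩ := Countable.exists_injective_nat a.ToType
    exact ⟨e, fun _ => he⟩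
  · exact ⟨fun _ => 0, fun h => absurd h ha⟩

/-- the name of a map from `ω` onto `a` -/
noncomputable def suN (P : Type) [PartialOrder P] [OrderTop P] (a : Ordinal.{0}) : Nm P :=
  Nm.mk a.ToType (fun i => pairN (ordN P ((exists_enum a).choose i : Ordinal.{0}))
    (ordN P (ToType.toOrd i).1)) (fun _ => ⊤)

theorem countable_bdd {s : Set Ordinal.{0}} (hs : s.Countable) (h : ∀ c ∈ s, c < w1) :
    ∃ b < w1, ∀ c ∈ s, c < b := by
  have hlim : Order.IsSuccLimit w1 := by
    rw [w1]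
    exact Cardinal.isSuccLimit_ord (Cardinal.aleph0_le_aleph 1)
  have : Countable s := hs.to_subtype
  have h1 : (⨆ c : s, (c.1 + 1)) < w1 := by
    rw [w1_eq]
    apply Ordinal.iSup_lt_omega_one
    intro c
    rw [← w1_eq]
    exact hlim.add_one_lt (h c.1 c.2)
  refine ⟨_, h1, fun c hc => ?_⟩
  have h2 : (c + 1) ≤ ⨆ c : s, (c.1 + 1) :=
    Ordinal.le_iSup (fun c : s => c.1 + 1) ⟨c, hc⟩
  exact lt_of_lt_of_le (Order.lt_add_one_iff.2 le_rfl) h2

/-- the possible values -/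
def Vs (p : P) (φ : Nm P) (a : Ordinal.{0}) : Set Ordinal.{0} :=
  {b | b < w1 ∧ ∃ a' < a, ∃ q ≤ p, FMem (pairN (ordN P a') (ordN P b)) φ q}

open Classical in
/-- a bound of the values -/
noncomputable def bd (p : P) (φ : Nm P) (a : Ordinal.{0}) : Ordinal.{0} :=
  if h : ∃ b < w1, ∀ c ∈ Vs p φ a, c < b then h.choose else 0

/-- `p` forces that `f` is not a function -/
def RF (p : P) (l : List (Obj P)) : Prop :=
  ∃ (β ξ η : Ordinal.{0}) (f : Nm P),
    l = [Sum.inl (pairN (ordN P β) (pairN (ordN P ξ) (ordN P η))), Sum.inl f] ∧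
      ξ ≠ η ∧ FMem (pairN (ordN P β) (ordN P ξ)) f p ∧
        FMem (pairN (ordN P β) (ordN P η)) f p

/-- the operations -/
def OO : ℕ → List (Obj P) → Obj P → Prop
  | 0, l, z => l = [] ∧ z = Sum.inl (ordN P w1)
  | 1, l, z => ∃ a, l = [Sum.inl (ordN P a)] ∧ z = Sum.inl (suN P a)
  | 2, l, z => ∃ p φ a, l = [Sum.inr p, Sum.inl φ, Sum.inl (ordN P a)] ∧
      z = Sum.inl (ordN P (bd p φ a))
  | _, _, _ => False

theorem OO_fun (k : ℕ) (l : List (Obj P)) (y z : Obj P) (hy : OO k l y) (hz : OO k l z) :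
    y = z := by
  match k, hy, hz with
  | 0, hy, hz => rw [hy.2, hz.2]
  | 1, hy, hz =>
    obtain ⟨a, rfl, rfl⟩ := hy
    obtain ⟨c, h, rfl⟩ := hz
    simp only [List.cons.injEq, Sum.inl.injEq, and_true] at h
    rw [ordN_inj' h]
  | 2, hy, hz =>
    obtain ⟨p, φ, a, rfl, rfl⟩ := hy
    obtain ⟨p', φ', a', h, rfl⟩ := hz
    simp only [List.cons.injEq, Sum.inl.injEq, Sum.inr.injEq, and_true] at h
    obtain ⟨rfl, rfl, h⟩ := h
    rw [ordN_inj' h]
  | n + 3, hy, hz => exact hy.elim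

/-- the requirements -/
def rq (P : Type) [PartialOrder P] [OrderTop P] : Req P where
  K := ℕ
  cK := inferInstance
  R := fun _ => RF
  O := OO
  hO := OO_fun

/-- the countable chain condition bounds the values -/
theorem countable_Vs (hccc : ∀ F : Set P, (∀ p ∈ F, ∀ q ∈ F, p ≠ q → ¬ ∃ r, r ≤ p ∧ r ≤ q) →
    F.Countable) {p : P} {φ : Nm P}
    (hf : ∀ q ≤ p, ∀ β ξ η, FMem (pairN (ordN P β) (ordN P ξ)) φ q →
      FMem (pairN (ordN P β) (ordN P η)) φ q → ξ = η) {a : Ordinal.{0}} (ha : a < w1) :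
    (Vs p φ a).Countable := by
  have h1 : Vs p φ a ⊆ ⋃ i : a.ToType,
      {b | ∃ q ≤ p, FMem (pairN (ordN P (ToType.toOrd i).1) (ordN P b)) φ q} := by
    rintro b ⟨-, a', ha', q, hq, hm⟩
    refine Set.mem_iUnion.2 ⟨ToType.mk ⟨a', ha'⟩, q, hq, ?_⟩
    simpa using hm
  refine Set.Countable.mono h1 ?_
  have := countable_Iio ha
  refine Set.countable_iUnion fun i => ?_
  set β := (ToType.toOrd i).1 with hβ
  let B : Set Ordinal.{0} := {b | ∃ q ≤ p, FMem (pairN (ordN P β) (ordN P b)) φ q}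
  change B.Countable
  have h2 : ∀ b : B, ∃ q ≤ p, FMem (pairN (ordN P β) (ordN P b.1)) φ q := fun b => b.2
  choose q hq hm using h2
  have h3 : ∀ b c : B, (∃ r, r ≤ q b ∧ r ≤ q c) → b = c := by
    rintro b c ⟨r, hr1, hr2⟩
    exact Subtype.ext (hf r (hr1.trans (hq b)) β b.1 c.1 ((hm b).mono hr1) ((hm c).mono hr2))
  have h4 : Function.Injective q := fun b c h => h3 b c ⟨q b, le_rfl, h.le⟩
  have h5 : (Set.range q).Countable := by
    apply hccc
    rintro _ ⟨b, rfl⟩ _ ⟨c, rfl⟩ hne hr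
    exact hne (by rw [h3 b c hr])
  have : Countable (Set.range q) := h5.to_subtype
  have h6 : Countable B := by
    have h7 : Function.Injective (fun b : B => (⟨q b, b, rfl⟩ : Set.range q)) := by
      intro b c h
      exact h4 (congrArg Subtype.val h)
    exact h7.countable
  exact h6

end OM

open OM

variable {P : Type} [PartialOrder P] [OrderTop P]

/-- block OM: the countable chain condition preserves `ω₁` -/
theorem req_omega1 (hccc : ∀ F : Set P, (∀ p ∈ F, ∀ q ∈ F, p ≠ q → ¬ ∃ r, r ≤ p ∧ r ≤ q) →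
    F.Countable) : ∃ r : Req P, ∀ X G, Basic X G → Clos X → r.Sat X G →
      (Sum.inl (ordN P (Cardinal.aleph 1).ord) : Obj P) ∈ X ∧
        NextCard (Mod X G) om (val X G (ordN P (Cardinal.aleph 1).ord)) := by
  refine ⟨rq P, fun X G h hc hs => ?_⟩
  have l1 : ∀ {a : Obj P}, a ∈ X → ∀ b ∈ [a], b ∈ X := by
    intro a ha b hb
    rw [List.mem_singleton] at hb
    rwa [hb]
  have hw : (Sum.inl (ordN P w1) : Obj P) ∈ X := hs.clo (0 : ℕ) [] _ (by simp) ⟨rfl, rfl⟩
  have hsu : ∀ a, (Sum.inl (ordN P a) : Obj P) ∈ X → (Sum.inl (suN P a) : Obj P) ∈ X :=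
    fun a ha => hs.clo (1 : ℕ) _ _ (l1 ha) ⟨a, rfl, rfl⟩
  have hbd : ∀ p φ a, (Sum.inr p : Obj P) ∈ X → (Sum.inl φ : Obj P) ∈ X →
      (Sum.inl (ordN P a) : Obj P) ∈ X → (Sum.inl (ordN P (bd p φ a)) : Obj P) ∈ X := by
    intro p φ a hp hφ ha
    refine hs.clo (2 : ℕ) [Sum.inr p, Sum.inl φ, Sum.inl (ordN P a)] _ ?_ ⟨p, φ, a, rfl, rfl⟩
    intro b hb
    simp only [List.mem_cons, List.not_mem_nil, or_false] at hb
    rcases hb with rfl | rfl | rfl <;> assumption
  change (Sum.inl (ordN P w1) : Obj P) ∈ X ∧ NextCard (Mod X G) om (val X G (ordN P w1))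
  refine ⟨hw, ⟨mem_Mod hw, val_ordN_isOrdinal h.filt, ?_⟩, ?_, ?_⟩
  · intro α hα
    obtain ⟨a, ha, haX, rfl⟩ := (val_ordN_mem h.filt).1 hα
    rintro ⟨_, ⟨φ, hφ, rfl⟩, hfun, hon⟩
    -- a condition that forces that `φ` is a function
    obtain ⟨p1, hp1, h1⟩ : ∃ p ∈ G, ∀ q ≤ p, ∀ β ξ η, FMem (pairN (ordN P β) (ordN P ξ)) φ q →
        FMem (pairN (ordN P β) (ordN P η)) φ q → ξ = η := by
      obtain ⟨p2, hp2, h2⟩ := hs.gen (0 : ℕ) _ (l1 hφ)
      refine ⟨p2, hp2, ?_⟩
      rcases h2 with ⟨y, hy, β, ξ, η, f', he, hne, h3, h4⟩ | h2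
      · exfalso
        obtain ⟨he1, he2⟩ := List.cons.inj he
        obtain ⟨he2, -⟩ := List.cons.inj he2
        have he3 := Sum.inl.inj he2
        subst he3
        rw [he1] at hy
        have hβ := hc.fst _ _ hy
        have hrest := hc.snd _ _ hy
        have hξ := hc.fst _ _ hrest
        have hη := hc.snd _ _ hrest
        have e1 := (pair_iff h hc hβ hξ hφ).2 ⟨p2, hp2, h3⟩
        have e2 := (pair_iff h hc hβ hη hφ).2 ⟨p2, hp2, h4⟩
        exact hne (val_ordN_inj h hξ hη (hfun _ _ _ e1 e2))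
      · intro q hq β ξ η h3 h4
        by_contra hne
        exact h2 q hq _ ⟨β, ξ, η, φ, rfl, hne, h3, h4⟩
    obtain ⟨p, hp, hpp, hpX⟩ := h.filt.below hp1
    have h2 : ∀ q ≤ p, ∀ β ξ η, FMem (pairN (ordN P β) (ordN P ξ)) φ q →
        FMem (pairN (ordN P β) (ordN P η)) φ q → ξ = η := fun q hq => h1 q (hq.trans hpp)
    have h3 : ∃ b < w1, ∀ c ∈ Vs p φ a, c < b :=
      countable_bdd (countable_Vs hccc h2 ha) fun c hc => hc.1
    have h4 : bd p φ a < w1 ∧ ∀ c ∈ Vs p φ a, c < bd p φ a := by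
      rw [bd, dif_pos h3]
      exact h3.choose_spec
    have hbX := hbd p φ a hpX hφ haX
    obtain ⟨x, hx, hxf⟩ := hon _ ((val_ordN_mem_iff h hbX hw).2 h4.1)
    obtain ⟨a', ha', haX', rfl⟩ := (val_ordN_mem h.filt).1 hx
    obtain ⟨r, hr, hm⟩ := (pair_iff h hc haX' hbX hφ).1 hxf
    obtain ⟨q, -, hq1, hq2⟩ := h.filt.compat hp hr
    exact lt_irrefl _ (h4.2 _ ⟨h4.1, a', ha', q, hq1, hm.mono hq2⟩)
  · rw [← val_omega h hc, val_ordN_mem_iff h hc.omega hw, w1_eq]
    exact omega0_lt_omega_one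
  · intro α hα
    obtain ⟨a, ha, haX, rfl⟩ := (val_ordN_mem h.filt).1 hα
    have hinj := (exists_enum a).choose_spec ha
    refine ⟨_, mem_Mod (hsu a haX), ?_, ?_⟩
    · intro x y z hy hz
      obtain ⟨i, -, hi, hi2⟩ := mem_val.1 hy
      obtain ⟨j, -, hj, hj2⟩ := mem_val.1 hz
      change (Sum.inl (pairN (ordN P ((exists_enum a).choose i : Ordinal.{0}))
        (ordN P (ToType.toOrd i).1)) : Obj P) ∈ X at hi
      change val X G (pairN (ordN P ((exists_enum a).choose i : Ordinal.{0}))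
        (ordN P (ToType.toOrd i).1)) = _ at hi2
      change (Sum.inl (pairN (ordN P ((exists_enum a).choose j : Ordinal.{0}))
        (ordN P (ToType.toOrd j).1)) : Obj P) ∈ X at hj
      change val X G (pairN (ordN P ((exists_enum a).choose j : Ordinal.{0}))
        (ordN P (ToType.toOrd j).1)) = _ at hj2
      rw [val_pairN h.filt hc (hc.fst _ _ hi) (hc.snd _ _ hi)] at hi2
      rw [val_pairN h.filt hc (hc.fst _ _ hj) (hc.snd _ _ hj)] at hj2
      obtain ⟨h5, h6⟩ := ZFSet.pair_injective hi2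
      obtain ⟨h7, h8⟩ := ZFSet.pair_injective hj2
      have h9 := val_ordN_inj h (hc.fst _ _ hi) (hc.fst _ _ hj) (h5.trans h7.symm)
      have h10 : i = j := hinj (by exact_mod_cast h9)
      rw [← h6, ← h8, h10]
    · intro y hy
      obtain ⟨b, hb, hbX, rfl⟩ := (val_ordN_mem h.filt).1 hy
      let i : a.ToType := ToType.mk ⟨b, hb⟩
      have hib : (ToType.toOrd i).1 = b := by simp [i]
      have hnX := natX hc ((exists_enum a).choose i) (X := X)
      refine ⟨val X G (ordN P ((exists_enum a).choose i : Ordinal.{0})), ?_, ?_⟩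
      · rw [← val_omega h hc]
        exact (val_ordN_mem_iff h hnX hc.omega).2 (natCast_lt_omega0 _)
      · rw [← val_pairN h.filt hc hnX hbX]
        refine mem_val.2 ⟨i, h.filt.top, ?_, ?_⟩
        · change (Sum.inl (pairN (ordN P ((exists_enum a).choose i : Ordinal.{0}))
            (ordN P (ToType.toOrd i).1)) : Obj P) ∈ X
          rw [hib]
          exact hc.pair hnX hbX
        · change val X G (pairN (ordN P ((exists_enum a).choose i : Ordinal.{0}))
            (ordN P (ToType.toOrd i).1)) = _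
          rw [hib]

end Pool.Agent.Helper60.MA
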