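import Pool.Agent.Helper60.MA.Hull
import Pool.Agent.Helper96.Fc.Card

/-!
# Block PAR: existence of the parameters
-/

set_option linter.unusedSectionVars false
set_option linter.unusedVariables false

open Cardinal

namespace Pool.Agent.Helper60.MA

/-- the length of the iteration -/
noncomputable abbrev kap : Cardinal.{0} := Order.succ (2 ^ ℵ₀)

/-- the coordinates -/
abbrev Om : Type := kap.ord.ToType

/-- the labels -/
abbrev La : Type := (Cardinal.aleph 1).ord.ToType

theorem kap_reg : kap.IsRegular := isRegular_succ (cantor ℵ₀).le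

theorem aleph0_lt_kap : ℵ₀ < kap := (cantor ℵ₀).trans (Order.lt_succ _)

theorem mk_Om : #Om = kap := mk_ord_toType _

theorem kap_pow : kap ^ ℵ₀ = kap := by
  refine le_antisymm (Pool.Agent.Helper96.Fc.regular_pow_le kap_reg aleph0_lt_kap ?_)
    (self_le_power _ one_le_aleph0)
  intro a ha
  have h1 : a ≤ 2 ^ ℵ₀ := Order.lt_succ_iff.1 ha
  calc a ^ ℵ₀ ≤ (2 ^ ℵ₀) ^ ℵ₀ := power_le_power_right h1
    _ = 2 ^ ℵ₀ := by rw [← power_mul, aleph0_mul_aleph0]
    _ ≤ kap := (Order.lt_succ _).le

instance : Infinite Om := by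
  rw [infinite_iff, mk_Om]
  exact aleph0_lt_kap.le

theorem mk_Ent : #(Ent Om) ≤ kap := by
  have h1 : #(Ent Om) ≤ #(List (List Sym) × Finset Om) := by
    refine mk_le_of_injective (f := fun x => (x.stem, x.side)) ?_
    rintro ⟨a, b⟩ ⟨c, d⟩ h
    simpa using h
  refine h1.trans ?_
  rw [mk_prod, lift_id, lift_id, mk_finset_of_infinite, mk_Om]
  have h2 : #(List (List Sym)) ≤ ℵ₀ := mk_le_aleph0
  calc #(List (List Sym)) * kap ≤ kap * kap := mul_le_mul_left (h2.trans aleph0_lt_kap.le) _
    _ = kap := mul_eq_self aleph0_lt_kap.le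

theorem mk_Cd : #(Cd Om) ≤ kap := by
  have h1 : #(Cd Om) ≤ #(Finset (Om × Ent Om)) := by
    refine mk_le_of_injective (f := fun p : Cd Om => p.graph) ?_
    exact Finsupp.graph_injective _ _
  refine h1.trans ?_
  rw [mk_finset_of_infinite, mk_prod, lift_id, lift_id, mk_Om]
  calc kap * #(Ent Om) ≤ kap * kap := mul_le_mul_right mk_Ent _
    _ = kap := mul_eq_self aleph0_lt_kap.le

theorem exists_dec : ∃ dec : Om → ℕ → ℕ → Cd Om × Bool, Function.Surjective dec := by
  have h1 : #(ℕ → ℕ → Cd Om × Bool) ≤ #Om := by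
    have h2 : #(Cd Om × Bool) ≤ kap := by
      rw [mk_prod, lift_id, lift_id]
      calc #(Cd Om) * #Bool ≤ kap * kap :=
            mul_le_mul' mk_Cd ((mk_le_aleph0 (α := Bool)).trans aleph0_lt_kap.le)
        _ = kap := mul_eq_self aleph0_lt_kap.le
    have h3 : #(ℕ → Cd Om × Bool) ≤ kap := by
      rw [← power_def, mk_nat]
      exact (power_le_power_right h2).trans kap_pow.le
    rw [← power_def, mk_nat, mk_Om]
    exact (power_le_power_right h3).trans kap_pow.le
  obtain ⟨f⟩ := h1
  exact ⟨Function.invFun f, Function.invFun_surjective f.injective⟩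

/-- block PAR: existence of the parameters -/
theorem exists_sys : ∃ S : Sys Om La, ∀ (e : Om) (c : Bool) (l : La) (ν : Om),
    ∃ e' > e, S.cat e' = c ∧ S.lab e' = l ∧ S.nam e' = ν := by
  obtain ⟨dec, hdec⟩ := exists_dec
  have hLa : #La ≤ kap := by
    rw [mk_ord_toType, aleph_one_le_iff]
    exact aleph0_lt_kap
  have hp : #(Om × (Bool × La × Om)) = #Om := by
    rw [mk_prod, lift_id, lift_id, mk_prod, lift_id, lift_id, mk_prod, lift_id, lift_id, mk_Om]
    refine le_antisymm ?_ ?_
    · have h1 : #La * kap ≤ kap := (mul_le_mul_left hLa _).trans (mul_eq_self aleph0_lt_kap.le).le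
      have h2 : #Bool * (#La * kap) ≤ kap :=
        (mul_le_mul' ((mk_le_aleph0 (α := Bool)).trans aleph0_lt_kap.le) h1).trans
          (mul_eq_self aleph0_lt_kap.le).le
      exact (mul_le_mul_right h2 _).trans (mul_eq_self aleph0_lt_kap.le).le
    · refine le_mul_right ?_
      have : Nonempty (Bool × La × Om) := by
        have : Nonempty La := by
          rw [← mk_ne_zero_iff, mk_ord_toType]
          exact (aleph_pos 1).ne'
        infer_instance
      have h3 := mk_ne_zero (Bool × La × Om)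
      rwa [mk_prod, lift_id, lift_id, mk_prod, lift_id, lift_id, mk_Om] at h3
  obtain ⟨g⟩ := Cardinal.eq.1 hp
  refine ⟨⟨fun e => (g.symm e).2.1, fun e => (g.symm e).2.2.1, fun e => (g.symm e).2.2.2, dec,
    hdec⟩, ?_⟩
  intro e c l ν
  have hT : ¬ #(Set.range (fun x : Om => g (x, (c, l, ν)))) < kap := by
    rw [mk_range_eq]
    · rw [mk_Om]
      exact lt_irrefl _
    · intro x y hxy
      have := g.injective hxy
      simpa using this
  obtain ⟨e', ⟨x, rfl⟩, hlt⟩ := Pool.Agent.Helper96.Fc.exists_gt_of_not_small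
    aleph0_lt_kap.le hT e
  refine ⟨_, hlt, ?_, ?_, ?_⟩ <;> simp

theorem bddOm {Z : Type} (hZ : #Z ≤ Cardinal.aleph 1) (f : Z → Om) : ∃ e, ∀ z, f z < e := by
  refine Pool.Agent.Helper96.Fc.exists_bound kap_reg (hZ.trans_lt ?_) f
  refine lt_of_le_of_lt ?_ (Order.lt_succ (2 ^ ℵ₀))
  rw [aleph_one_le_iff]
  exact cantor ℵ₀

theorem bddLa {Z : Type} [Countable Z] (f : Z → La) : ∃ l, ∀ z, f z < l := by
  refine Pool.Agent.Helper96.Fc.exists_bound isRegular_aleph_one ?_ f
  exact (mk_le_aleph0 (α := Z)).trans_lt (aleph0_lt_aleph_one)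

end Pool.Agent.Helper60.MA
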