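import Pool.Agent.Helper60.MA.Hull

/-!
# Block XN: the names of the generic reals
-/

set_option linter.unusedSectionVars false
set_option linter.unusedVariables false

open Cardinal

namespace Pool.Agent.Helper60.MA

variable {Ω L : Type} [LinearOrder Ω] [LinearOrder L]

namespace Sys

/-- the condition with the stem `σ` at `α` -/
noncomputable def one (α : Ω) (σ : List (List Sym)) : Cd Ω := Finsupp.single α ⟨σ, ∅⟩

theorem one_self (α : Ω) (σ : List (List Sym)) : one α σ α = ⟨σ, ∅⟩ := Finsupp.single_eq_same

theorem one_ne {α d : Ω} (h : d ≠ α) (σ : List (List Sym)) : one α σ d = 0 :=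
  Finsupp.single_eq_of_ne h

variable [WellFoundedLT Ω] {S : Sys Ω L}

theorem le_one {α : Ω} {σ : List (List Sym)} {r : Cd Ω} (hr : S.Le r 0)
    (h : ∃ bs, (r α).stem = σ ++ bs) (hα : S.cat α = false) : S.Le r (one α σ) := by
  intro d
  by_cases hd : d = α
  · subst hd
    rw [one_self]
    obtain ⟨bs, hbs⟩ := h
    refine ⟨Finset.empty_subset _, bs, hbs, ?_⟩
    intro a β c _
    rw [if_neg (by rw [hα]; decide)]
    intro k t _ γ hγ
    exact absurd hγ (Finset.notMem_empty γ)
  · rw [one_ne hd]
    exact hr d

theorem one_le_zero {α : Ω} (hα : S.cat α = false) (σ : List (List Sym)) :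
    S.Le (one α σ) 0 := by
  intro d
  by_cases hd : d = α
  · subst hd
    rw [one_self]
    refine ⟨Finset.empty_subset _, σ, rfl, ?_⟩
    intro a β c _
    rw [if_neg (by rw [hα]; decide)]
    intro k t _ γ hγ
    exact absurd hγ (Finset.notMem_empty γ)
  · rw [one_ne hd]
    exact Loc.refl _ _ _ _

theorem cond_one {α : Ω} (hα : S.cat α = false) (σ : List (List Sym)) : S.Cond (one α σ) := by
  refine ⟨one_le_zero hα σ, ?_⟩
  intro d hd
  by_cases hdα : d = α
  · subst hdα
    rw [one_self]
    exact ⟨fun h => absurd h (by rw [hα]; decide), fun _ γ hγ => absurd hγ (Finset.notMem_empty γ)⟩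
  · exact (hd (one_ne hdα σ)).elim

end Sys

/-- block XN: the names of the generic reals (values of the stems at `α`) -/
theorem Sys.exists_xname [WellFoundedLT Ω] {S : Sys Ω L} {α : Ω} (hα : S.cat α = false) :
    ∃ ν, (∀ e, α < e → S.Nme e ν) ∧ ∀ k n, ∃ t, ((S.dec ν k n).1 α).word[k]? =
      some ((S.dec ν k n).2, t) := by
  classical
  have hne : ∀ k : ℕ, Nonempty {σ : List (List Sym) // k < σ.flatten.length} := fun k =>
    ⟨⟨[List.replicate (k + 1) (false, false)], by simp⟩⟩
  have hen : ∀ k : ℕ, ∃ f : ℕ → {σ : List (List Sym) // k < σ.flatten.length},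
      Function.Surjective f := fun k =>
    have := hne k
    exists_surjective_nat _
  choose f hf using hen
  obtain ⟨ν, hν⟩ := S.surj fun k n => (Sys.one α (f k n).1,
    ((f k n).1.flatten[k]'(f k n).2).1)
  have hdec : ∀ k n, S.dec ν k n = (Sys.one α (f k n).1,
    ((f k n).1.flatten[k]'(f k n).2).1) := fun k n => by rw [hν]
  have hval : ∀ k n, ((S.dec ν k n).1 α).word[k]? = some ((f k n).1.flatten[k]'(f k n).2) := by
    intro k n
    rw [hdec, Sys.one_self]
    exact List.getElem?_eq_getElem (f k n).2
  refine ⟨ν, ?_, ?_⟩
  · intro e he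
    refine ⟨?_, ?_, ?_⟩
    · intro k n
      rw [hdec]
      refine Sys.CondB_iff'.2 ⟨Sys.cond_one hα _, ?_⟩
      intro d hd
      by_cases hdα : d = α
      · rwa [hdα]
      · exact (hd (Sys.one_ne hdα _)).elim
    · intro k p hp
      have hpc := hp.cond
      let x : Ent Ω := ⟨(p α).stem ++ [List.replicate (k + 1) (false, false)], (p α).side⟩
      have h1 := Sys.mix_le (S := S) (e := α) (q := Sys.cut α p) (p := p) (x := x)
        (hpc.cut α) hpc (Sys.LeB_cut_left.2 (Sys.LeB.refl _ _)) ?_ ?_
      · obtain ⟨h2, h3, h4⟩ := h1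
        have hlen : k < x.stem.flatten.length := by
          simp only [x, List.flatten_append, List.length_append, List.flatten_cons,
            List.flatten_nil, List.append_nil, List.length_replicate]
          omega
        obtain ⟨n, hn⟩ := hf k ⟨x.stem, hlen⟩
        refine ⟨n, _, ?_, h3, ?_⟩
        · refine Sys.CondB_iff'.2 ⟨h2, ?_⟩
          intro d hd
          rcases lt_trichotomy d α with hdα | hdα | hdα
          · exact hdα.trans he
          · rw [hdα]; exact he
          · rw [Sys.mix_gt hdα] at hd
            exact hp.lt hd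
        · rw [hdec]
          refine Sys.le_one h2.1 ⟨[], ?_⟩ hα
          rw [Sys.mix_self, hn]
          simp
      · refine ⟨fun h => absurd h (by rw [hα]; decide), fun _ γ hγ => ?_⟩
        by_cases h0 : p α = 0
        · have : γ ∈ (p α).side := hγ
          rw [h0] at this
          exact absurd this (Finset.notMem_empty γ)
        · exact (hpc.2 α h0).2 hα γ hγ
      · refine ⟨Finset.Subset.refl _, [List.replicate (k + 1) (false, false)], rfl, ?_⟩
        intro a β c habc
        rw [if_neg (by rw [hα]; decide)]
        have hβ : β = List.replicate (k + 1) (false, false) := by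
          have hmem : β ∈ [List.replicate (k + 1) ((false, false) : Sym)] := by
            rw [habc]; simp
          simpa using hmem
        intro j t hj γ _ _
        rw [hβ] at hj
        have hj2 := List.mem_of_getElem? hj
        rw [List.mem_replicate] at hj2
        exact absurd (congrArg Prod.fst hj2.2) (by simp)
    · intro k m n r hr hm hn
      have h1 := hm.word α
      have h2 := hn.word α
      have e1 := hval k m
      have e2 := hval k n
      have h3 : ∀ {a b : List Sym} {s : Sym}, a <+: b → a[k]? = some s → b[k]? = some s := by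
        intro a b s hab has
        obtain ⟨c, rfl⟩ := hab
        rw [List.getElem?_append_left]
        · exact has
        · obtain ⟨hlt, -⟩ := List.getElem?_eq_some_iff.1 has
          exact hlt
      have h4 := h3 h1 e1
      have h5 := h3 h2 e2
      rw [h4] at h5
      have h6 := Option.some.inj h5
      rw [hdec, hdec]
      exact congrArg Prod.fst h6
  · intro k n
    refine ⟨((f k n).1.flatten[k]'(f k n).2).2, ?_⟩
    rw [hval, hdec]

end Pool.Agent.Helper60.MA
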